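import Pool.Agent.Helper993.Compare

open scoped Topology

namespace Pool.Agent.Results.MP_9a92d3_gt.NoTorsionLimit

/-- There are a finite `Δ`-complex `X` with one vertex whose universal covering is
det-`L²`-acyclic and a finite index normal chain `G = N 0 ⊇ N 1 ⊇ ⋯` with trivial intersection in
`G = π_1(X)` such that the normalised alternating sums of the `log |tors H_n(X̃/N i; ℤ)|` have no
limit. -/
theorem result : ∃ X : Pool.Agent.Helper993.Delta.OneVertex, X.DetL2Acyclic ∧
    ∃ (N : ℕ → Subgroup X.pi1) (_ : ∀ i, (N i).Normal),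
      (∀ i, (N i).FiniteIndex) ∧ N 0 = ⊤ ∧ Antitone N ∧ ⨅ i, N i = ⊥ ∧
      ¬ ∃ L : ℝ, Filter.Tendsto (fun i => X.torsionSum (N i)) Filter.atTop (𝓝 L) := by
  obtain ⟨X, hX, C, hC⟩ := Pool.Agent.Helper993.Cpx.counterexample
  exact ⟨X, hX, C.sub, C.normal, C.finiteIndex, C.zero, C.strictAnti.antitone, C.iInf_eq_bot, hC⟩

end Pool.Agent.Results.MP_9a92d3_gt.NoTorsionLimit
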